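import Pool.Agent.H33.Hr5

set_option autoImplicit false

namespace Pool.Agent.Results.MP_4abea4_an.Neg

open Pool.Agent.H33.Hr

theorem result : ∃ f : ℤ → ℝ,
    (∃ (X : Type) (_ : TopologicalSpace X) (_ : CompactSpace X) (_ : T2Space X) (T : X ≃ₜ X)
      (x0 : X) (F : C(X, ℝ)), HEmb T ∧ ∀ n : ℤ, f n = F ((T ^ n) x0)) ∧
    ∃ σ : closure (Set.range fun n m : ℤ => f (m + n)) ≃ₜ
        closure (Set.range fun n m : ℤ => f (m + n)),
      (∀ y m, (σ y).1 m = y.1 (m + 1)) ∧ ¬ HEmb σ := by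
  have := compact_Y
  refine ⟨ya, ?_, Sh ya, fun _ _ => rfl, fun h => not_group (Sh ya) (rep_of_emb h) (self_group _)⟩
  obtain ⟨X, _, _, _, T, π, h1, ⟨h2, h3, h4⟩, -⟩ := almost (Sh ya) hilb
  obtain ⟨x0, hx⟩ := h3 (b0 ya)
  refine ⟨X, inferInstance, inferInstance, inferInstance, T, x0, ⟨fun x => (π x).1 0,
    (continuous_apply 0).comp (continuous_subtype_val.comp h2)⟩, emb_of_rep h1, fun n => ?_⟩
  show _ = (π _).1 0
  rw [zsemi T (Sh ya) π h4, hx, Sh_zpow]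
  show _ = ya (0 + n)
  rw [zero_add]

end Pool.Agent.Results.MP_4abea4_an.Neg
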